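import Pool.Agent.ZRT.StmtsB

/-!
# ZRT, row CH4: the lifted family at the corner
-/

noncomputable section

open scoped ContDiff Topology RealInnerProductSpace
open Set MeasureTheory

namespace Pool.Agent.ZRT.H33

open Pool.Agent.RF Pool.Agent.MVS Pool.Agent.ZRT

theorem ch4 (hXb1 : Xb1Statement) (hXsh : XshStatement) (hLex : LexStatement)
    (hLtp : LtpStatement) (hLun : LunStatement) : Ch4Statement := by
  intro G ex p q u n L w hC l r φ hl0 hlL hr hφ hr0 hr1 hφ0 hφ1 hb z hz hz0 hz1 hzl H hH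
  have hcyl := hC.geo.cyl
  have hsec := hC.geo.sec
  have hexp := hC.geo.exp
  have hp := hC.hp
  have hq := hC.hq
  have hL0 := hC.L0
  have hLpi := hC.Lpi
  have hw0 := hC.w0
  have hm : ex (p, (L / 2) • u) ∈ Om (Fin 5) := hexp.mem p hp _
  obtain ⟨hpsm, -, -, -, hpsp, -⟩ := hXb1 G ex hcyl hexp p hp
  obtain ⟨hqsm, -, hqd, -, hqsp, -⟩ := hXb1 G ex hcyl hexp q hq
  -- the end point
  set m := ex (p, (L / 2) • u) with hm_def
  set v₀ := Tf ex p u (L / 2) with hv_def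
  set y₀ := (L / 2) • v₀ with hy_def
  have hv1 : G m v₀ v₀ = 1 := by
    rw [hm_def, hv_def, hpsp u (L / 2), hC.uu]
  have hy0q : ex (m, y₀) = q := by
    have h := (hXsh G ex hcyl hexp p hp u (L / 2) (L / 2)).1
    rw [add_halves, hC.start] at h
    exact h
  have hny : nm G m y₀ = L / 2 := by
    unfold nm
    rw [hy_def]
    simp only [map_smul, smul_apply, smul_eq_mul]
    rw [hv1, mul_one, Real.sqrt_mul_self (by positivity)]
  -- lifts of the geodesics `τ ↦ exp_q (τ z(s))`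
  have hsp : ∀ s ∈ Icc (0 : ℝ) 1, Speed G (fun τ => ex (q, τ • z s)) (l / 2) := by
    intro s hs
    refine ⟨fun τ => Tf ex q (z s) τ, fun τ _ => ⟨(hqd (z s) τ).hasDerivWithinAt, ?_⟩⟩
    have : nm G (ex (q, τ • z s)) (Tf ex q (z s) τ) = nm G q (z s) := by
      unfold nm
      rw [hqsp]
    rw [this]
    exact hzl s hs
  have hK : ∀ s : ℝ, ∃ y : ℝ → E5, s ∈ Icc (0 : ℝ) 1 →
      IsLift G ex m (fun τ => ex (q, τ • z s)) y ∧ y 0 = y₀ := by
    intro s
    by_cases hs : s ∈ Icc (0 : ℝ) 1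
    · obtain ⟨y, h1, h2, -⟩ := hLex G ex hcyl hsec hexp m hm (fun τ => ex (q, τ • z s)) y₀ (l / 2)
        (by positivity) (hsp s hs) (by
          simp only [zero_smul]
          rw [hexp.zero q hq, hy0q]) (by rw [hny]; linarith)
      exact ⟨y, fun _ => ⟨h1, h2⟩⟩
    · exact ⟨fun _ => 0, fun h => absurd h hs⟩
  choose K hK using hK
  have h0 : (0 : ℝ) ∈ Icc (0 : ℝ) 1 := ⟨le_rfl, zero_le_one⟩
  have h1 : (1 : ℝ) ∈ Icc (0 : ℝ) 1 := ⟨zero_le_one, le_rfl⟩
  -- joint continuity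
  have hjoint : ContinuousOn (fun x : ℝ × ℝ => K x.1 x.2) (Icc 0 1 ×ˢ Icc 0 1) := by
    refine hLtp G ex hcyl hsec hexp m hm (fun x : ℝ × ℝ => ex (q, x.2 • z x.1)) K ?_
      (fun s hs => (hK s hs).1) ?_
    · have hc : Continuous (fun v : E5 => ex (q, v)) := hqsm.continuous
      refine hc.comp_continuousOn (continuousOn_snd.smul ?_)
      exact hz.cont.comp continuousOn_fst fun x hx => hx.1
    · exact continuousOn_const.congr fun s hs => (hK s hs).2
  -- first lift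
  have hA : IsLift G ex m (fun s => ex (p, r s • Un u n (φ s))) (fun s => K s 1) := by
    refine ⟨?_, fun s hs => (hK s hs).1.lt 1 h1, fun s hs => ?_⟩
    · exact hjoint.comp (f := fun s : ℝ => (s, (1 : ℝ)))
        (continuousOn_id.prodMk continuousOn_const) fun s hs => ⟨hs, h1⟩
    · rw [(hK s hs).1.eq 1 h1]
      simp only [one_smul]
      exact hz.eq s hs
  -- second lift
  have hmap : ∀ s ∈ Icc (0 : ℝ) 1, φ s / w ∈ Icc (0 : ℝ) 1 ∧ r s / L ∈ Icc (0 : ℝ) 1 := by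
    intro s hs
    obtain ⟨a1, a2, a3, a4⟩ := hb s hs
    exact ⟨⟨by positivity, (div_le_one hw0).2 a4⟩, ⟨by positivity, (div_le_one hL0).2 a2⟩⟩
  have hB : IsLift G ex m (fun s => ex (p, r s • Un u n (φ s)))
      (fun s => H (φ s / w) (r s / L)) := by
    refine ⟨?_, fun s hs => hH.lt _ (hmap s hs).1 _ (hmap s hs).2, fun s hs => ?_⟩
    · exact hH.cont.comp (f := fun s : ℝ => (φ s / w, r s / L))
        (((hφ.div_const w).prodMk (hr.div_const L)).continuousOn)
        fun s hs => ⟨(hmap s hs).1, (hmap s hs).2⟩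
    · rw [hH.eq _ (hmap s hs).1 _ (hmap s hs).2, div_mul_cancel₀ _ hL0.ne',
        div_mul_cancel₀ _ hw0.ne']
  -- constant curves
  have hconst : ∀ s ∈ Icc (0 : ℝ) 1, z s = 0 → K s 1 = y₀ := by
    intro s hs hzs
    have hc : IsLift G ex m (fun τ => ex (q, τ • z s)) (fun _ => y₀) := by
      refine ⟨continuousOn_const, fun τ _ => by rw [hny]; linarith, fun τ _ => ?_⟩
      simp only [hzs, smul_zero]
      rw [hexp.zero q hq, hy0q]
    exact hLun G ex hcyl hsec hexp m hm _ _ _ (hK s hs).1 hc ⟨0, h0, (hK s hs).2⟩ 1 h1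
  have e0 : K 0 1 = H (φ 0 / w) (r 0 / L) := by
    rw [hconst 0 h0 hz0, hφ0, hr0, zero_div, div_self hL0.ne', hH.zero 1 h1, hy_def]
    congr 1
    ring
  have e1 := hLun G ex hcyl hsec hexp m hm _ _ _ hA hB ⟨0, h0, e0⟩ 1 h1
  rw [hφ1, hr1, div_self hw0.ne', div_self hL0.ne', hconst 1 h1 hz1] at e1
  exact e1.symm

end Pool.Agent.ZRT.H33

end
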